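import Pool.Agent.N821.CS.Stm

/-!
# Project CS (helper821): `d` is a metric

By helper286.
-/

set_option autoImplicit false

namespace Pool.Agent.N286.CS

open scoped InnerProductSpace NNReal Topology
open Filter TopologicalSpace Pool.Agent.N821.CS

universe u

section

variable {H : Type u} [NormedAddCommGroup H] [InnerProductSpace ℂ H]

lemma entry_le (T S : CSG H) (t : ℝ≥0) (u v : H) :
    ‖⟪(T.op t - S.op t) u, v⟫_ℂ‖ ≤ 2 * (‖u‖ * ‖v‖) := by
  have h1 : ‖(T.op t - S.op t) u‖ ≤ 2 * ‖u‖ := by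
    have h2 := (T.op t - S.op t).le_opNorm u
    have h3 : ‖T.op t - S.op t‖ ≤ 2 := by
      have := norm_sub_le (T.op t) (S.op t)
      have h4 := T.norm_le t
      have h5 := S.norm_le t
      linarith
    exact h2.trans (mul_le_mul_of_nonneg_right h3 (norm_nonneg _))
  calc ‖⟪(T.op t - S.op t) u, v⟫_ℂ‖ ≤ ‖(T.op t - S.op t) u‖ * ‖v‖ := norm_inner_le_norm _ _
    _ ≤ 2 * ‖u‖ * ‖v‖ := mul_le_mul_of_nonneg_right h1 (norm_nonneg _)
    _ = _ := by ring

lemma bdd (x : ℕ → H) (T S : CSG H) (n i j : ℕ) : BddAbove (Set.range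
    fun t : {t : ℝ≥0 // t ≤ n} => ‖⟪(T.op t - S.op t) (x i), x j⟫_ℂ‖) := by
  refine ⟨2 * (‖x i‖ * ‖x j‖), ?_⟩
  rintro _ ⟨t, rfl⟩
  exact entry_le T S t (x i) (x j)

instance ne (n : ℕ) : Nonempty {t : ℝ≥0 // t ≤ n} := ⟨⟨0, zero_le⟩⟩

lemma sup_nonneg (x : ℕ → H) (T S : CSG H) (n i j : ℕ) :
    0 ≤ ⨆ t : {t : ℝ≥0 // t ≤ n}, ‖⟪(T.op t - S.op t) (x i), x j⟫_ℂ‖ :=
  Real.iSup_nonneg fun _ => norm_nonneg _

lemma term_nonneg (x : ℕ → H) (T S : CSG H) (n i j : ℕ) : 0 ≤ term x T S n i j := by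
  unfold term
  exact div_nonneg (sup_nonneg x T S n i j) (by positivity)

lemma term_le {x : ℕ → H} (hx : ∀ i, x i ≠ 0) (T S : CSG H) (n i j : ℕ) :
    term x T S n i j ≤ 2 := by
  unfold term
  have h1 : 0 < ‖x i‖ * ‖x j‖ := mul_pos (norm_pos_iff.2 (hx i)) (norm_pos_iff.2 (hx j))
  rw [div_le_iff₀ h1]
  exact ciSup_le fun t => entry_le T S t (x i) (x j)

/-- the weights -/
noncomputable def wt (p : ℕ × ℕ × ℕ) : ℝ := (1 / 2 : ℝ) ^ ((p.1 + 1) + (p.2.1 + 1) + (p.2.2 + 1))

lemma wt_pos (p : ℕ × ℕ × ℕ) : 0 < wt p := by unfold wt; positivity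

lemma wt_summable : Summable wt := by
  have h1 : Summable (fun a : ℕ => (1 / 2 : ℝ) ^ (a + 1)) := by
    have := (summable_nat_add_iff 1).2 summable_geometric_two
    exact this
  have h2 := h1.mul_of_nonneg (h1.mul_of_nonneg h1 (fun _ => by positivity)
    (fun _ => by positivity)) (fun _ => by positivity)
    (fun _ => mul_nonneg (by positivity) (by positivity))
  refine h2.congr fun p => ?_
  unfold wt
  ring

lemma summ {x : ℕ → H} (hx : ∀ i, x i ≠ 0) (T S : CSG H) :
    Summable fun p : ℕ × ℕ × ℕ => wt p * term x T S (p.1 + 1) p.2.1 p.2.2 := by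
  refine Summable.of_nonneg_of_le (fun p => mul_nonneg (wt_pos p).le (term_nonneg _ _ _ _ _ _))
    (fun p => mul_le_mul_of_nonneg_left (term_le hx _ _ _ _ _) (wt_pos p).le)
    (wt_summable.mul_right 2)

lemma d_eq (x : ℕ → H) (T S : CSG H) :
    d x T S = ∑' p : ℕ × ℕ × ℕ, wt p * term x T S (p.1 + 1) p.2.1 p.2.2 := rfl

lemma term_self (x : ℕ → H) (T : CSG H) (n i j : ℕ) : term x T T n i j = 0 := by
  unfold term
  simp

lemma term_comm (x : ℕ → H) (T S : CSG H) (n i j : ℕ) : term x T S n i j = term x S T n i j := by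
  unfold term
  congr 2
  funext t
  have h1 : T.op t - S.op t = -(S.op t - T.op t) := by abel
  rw [h1, neg_apply, inner_neg_left, norm_neg]

lemma term_tri (x : ℕ → H) (T S U : CSG H) (n i j : ℕ) :
    term x T U n i j ≤ term x T S n i j + term x S U n i j := by
  unfold term
  rw [← add_div]
  refine div_le_div_of_nonneg_right ?_ (by positivity)
  refine ciSup_le fun t => ?_
  have h1 : T.op t - U.op t = (T.op t - S.op t) + (S.op t - U.op t) := by abel
  rw [h1, add_apply, inner_add_left]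
  exact (norm_add_le _ _).trans (add_le_add (le_ciSup (bdd x T S n i j) t)
    (le_ciSup (bdd x S U n i j) t))

lemma eq_of_entries {x : ℕ → H} (hd : DenseRange x) {T S : CSG H}
    (h : ∀ (t : ℝ≥0) (i j : ℕ), ⟪(T.op t - S.op t) (x i), x j⟫_ℂ = 0) : T = S := by
  apply CSG.ext
  funext t
  have h1 : ∀ i, (T.op t - S.op t) (x i) = 0 := by
    intro i
    have h2 : ∀ y : H, ⟪(T.op t - S.op t) (x i), y⟫_ℂ = 0 := fun y =>
      hd.induction_on y (isClosed_eq (by fun_prop) continuous_const) fun j => h t i j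
    exact inner_self_eq_zero.1 (h2 _)
  have h3 : ∀ y : H, (T.op t - S.op t) y = 0 := fun y =>
    hd.induction_on y (isClosed_eq (by fun_prop) continuous_const) h1
  exact sub_eq_zero.1 (ContinuousLinearMap.ext h3)

lemma eq_of_d {x : ℕ → H} (hd : DenseRange x) (hx : ∀ i, x i ≠ 0) {T S : CSG H}
    (h : d x T S = 0) : T = S := by
  refine eq_of_entries hd fun t i j => ?_
  obtain ⟨n, hn⟩ := exists_nat_ge t
  have h1 : wt (n, i, j) * term x T S (n + 1) i j ≤ d x T S := by
    rw [d_eq]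
    exact (summ hx T S).le_tsum (n, i, j) fun p _ =>
      mul_nonneg (wt_pos p).le (term_nonneg _ _ _ _ _ _)
  rw [h] at h1
  have h2 : term x T S (n + 1) i j ≤ 0 := by
    by_contra hcon
    have := mul_pos (wt_pos (n, i, j)) (not_le.1 hcon)
    linarith
  have h3 : 0 < ‖x i‖ * ‖x j‖ := mul_pos (norm_pos_iff.2 (hx i)) (norm_pos_iff.2 (hx j))
  unfold term at h2
  rw [div_le_iff₀ h3, zero_mul] at h2
  have hn1 : t ≤ ((n + 1 : ℕ) : ℝ≥0) := hn.trans (by push_cast; exact le_add_of_nonneg_right zero_le)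
  have h4 := le_ciSup (bdd x T S (n + 1) i j) ⟨t, hn1⟩
  have h5 := h4.trans h2
  exact norm_le_zero_iff.1 h5

/-- the metric space -/
@[instance_reducible]
noncomputable def met (x : ℕ → H) (hd : DenseRange x) (hx : ∀ i, x i ≠ 0) :
    MetricSpace (CSG H) where
  dist := d x
  dist_self := by
    intro T
    show d x T T = 0
    rw [d_eq]
    simp [term_self]
  dist_comm := by
    intro T S
    show d x T S = d x S T
    rw [d_eq, d_eq]
    exact tsum_congr fun p => by rw [term_comm]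
  dist_triangle := by
    intro T S U
    show d x T U ≤ d x T S + d x S U
    rw [d_eq, d_eq, d_eq, ← (summ hx T S).tsum_add (summ hx S U)]
    refine (summ hx T U).tsum_le_tsum (fun p => ?_) ((summ hx T S).add (summ hx S U))
    rw [← mul_add]
    exact mul_le_mul_of_nonneg_left (term_tri _ _ _ _ _ _ _) (wt_pos p).le
  eq_of_dist_eq_zero := by
    intro T S h
    exact eq_of_d hd hx h

end

/-- **MET** -/
theorem t : S_MET.{u} := by
  intro H _ _ x hd hx
  exact ⟨met x hd hx, fun T S => rfl⟩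

end Pool.Agent.N286.CS
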